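import Pool.Agent.H27.LV.Targets2
import Pool.Agent.H27.LV.Basic

/-!
# MP_70ba79_ag: module DUA of the board `lv_modules`
-/

set_option autoImplicit false

namespace Pool.Agent.H36.LV

open MvPolynomial SC Pool.Agent.H27.LV

variable {k : Type} [Field k] {n d : ℕ}

/-- the form with the coefficients `t` -/
noncomputable def form (t : Mon (n + 1) d → k) : MvPolynomial (Fin (n + 1)) k :=
  ∑ p, C (t p) * mono k p.1

lemma form_homog (t : Mon (n + 1) d → k) : (form t).IsHomogeneous d := by
  unfold form
  refine IsHomogeneous.sum _ _ _ fun p _ => ?_
  have := (isHomogeneous_C (Fin (n + 1)) (t p)).mul (isHomogeneous_mono (K := k) p)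
  simpa using this

lemma coeff_form (t : Mon (n + 1) d → k) (q : Mon (n + 1) d) :
    (form t).coeff (fs q.1) = t q := by
  classical
  unfold form
  rw [coeff_sum, Finset.sum_eq_single q]
  · rw [coeff_C_mul, coeff_mono, if_pos rfl, mul_one]
  · intro p _ hp
    rw [coeff_C_mul, coeff_mono, if_neg, mul_zero]
    intro h
    exact hp (Subtype.ext h)
  · intro h
    exact absurd (Finset.mem_univ _) h

/-- values of the form with the coefficients `t` at the points `a i` -/
noncomputable def evl {ι : Type} (a : ι → Fin (n + 1) → k) :
    (Mon (n + 1) d → k) →ₗ[k] (ι → k) where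
  toFun t := fun i => eval (a i) (form t)
  map_add' s t := by
    funext i
    simp only [form, Pi.add_apply, add_mul, Finset.sum_add_distrib, map_add]
  map_smul' c t := by
    funext i
    simp only [form, Pi.smul_apply, smul_eq_mul, map_sum, map_mul, eval_C, RingHom.id_apply,
      Finset.mul_sum]
    exact Finset.sum_congr rfl fun p _ => by ring

theorem dua : T_DUA := by
  classical
  intro k _ n d ι _ a hcard hgen
  have hinj : Function.Injective (evl (d := d) a) := by
    rw [← LinearMap.ker_eq_bot, LinearMap.ker_eq_bot']
    intro t ht
    have h0 : form t = 0 := hgen _ (form_homog t) fun i => congrFun ht i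
    funext q
    rw [← coeff_form t q, h0]
    simp
  have hfin : Module.finrank k (Mon (n + 1) d → k) = Module.finrank k (ι → k) := by
    rw [Module.finrank_fintype_fun_eq_card, Module.finrank_fintype_fun_eq_card, hcard]
  have hsur : Function.Surjective (evl (d := d) a) :=
    (LinearMap.injective_iff_surjective_of_finrank_eq_finrank hfin).mp hinj
  choose t ht using fun i : ι => hsur (Pi.single i 1)
  have hev : ∀ i j, eval (a j) (form (t i)) = if j = i then 1 else 0 := by
    intro i j
    have := congrFun (ht i) j
    rw [Pi.single_apply] at this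
    exact this
  refine ⟨fun i => form (t i), ⟨fun i => form_homog _, ?_, ?_, ?_⟩⟩
  · intro i
    rw [hev, if_pos rfl]
  · intro i j hij
    rw [hev, if_neg (Ne.symm hij)]
  · intro g hg
    have hz : g - ∑ i, C (eval (a i) g) * form (t i) = 0 := by
      refine hgen _ ?_ ?_
      · refine hg.sub ?_
        refine IsHomogeneous.sum _ _ _ fun i _ => ?_
        have := (isHomogeneous_C (Fin (n + 1)) (eval (a i) g)).mul (form_homog (t i))
        simpa using this
      · intro j
        simp only [map_sub, map_sum, map_mul, eval_C, hev]
        simp
    exact sub_eq_zero.mp hz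

end Pool.Agent.H36.LV
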