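import Pool.Agent.H27.LV.Targets
import Pool.Agent.H27.LV.Basic
import Pool.Agent.H64.SC.Api

/-!
# MP_70ba79_ag: module HYV of the board `lv_modules`
-/

set_option autoImplicit false

namespace Pool.Agent.H36.LV

open MvPolynomial SC Pool.Agent.H27.LV

section Ge

variable {k K : Type} [Field k] [Field K] [Algebra k K] (v : DV k K)

lemma ge_add {t : ℤ} {x y : K} (hx : ge v t x) (hy : ge v t y) : ge v t (x + y) := by
  by_cases h : x + y = 0
  · exact Or.inl h
  right
  refine v.ord_add_ge (fun h0 => ?_) (fun h0 => ?_) h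
  · exact hx.resolve_left h0
  · exact hy.resolve_left h0

lemma ge_neg {t : ℤ} {x : K} (hx : ge v t x) : ge v t (-x) := by
  rcases hx with h | h
  · left; rw [h, neg_zero]
  · right; rw [v.ord_neg]; exact h

lemma ge_sub {t : ℤ} {x y : K} (hx : ge v t x) (hy : ge v t y) : ge v t (x - y) := by
  rw [sub_eq_add_neg]
  exact ge_add v hx (ge_neg v hy)

lemma ge_mul {s t : ℤ} {x y : K} (hx : ge v s x) (hy : ge v t y) : ge v (s + t) (x * y) := by
  rcases hx with h | h
  · left; rw [h, zero_mul]
  rcases hy with h' | h'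
  · left; rw [h', mul_zero]
  by_cases hx0 : x = 0
  · left; rw [hx0, zero_mul]
  by_cases hy0 : y = 0
  · left; rw [hy0, mul_zero]
  right
  rw [v.ord_mul' hx0 hy0]
  omega

lemma ge_sum {ι : Type*} (s : Finset ι) (f : ι → K) (t : ℤ) (h : ∀ i ∈ s, ge v t (f i)) :
    ge v t (∑ i ∈ s, f i) := by
  classical
  induction s using Finset.induction_on with
  | empty => exact Or.inl rfl
  | insert a s ha ih =>
    rw [Finset.sum_insert ha]
    exact ge_add v (h a (Finset.mem_insert_self _ _))
      (ih fun i hi => h i (Finset.mem_insert_of_mem hi))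

end Ge

theorem hyv (h : T_HYC) : T_HYV := by
  intro k K _ _ _ n d ι _ a φ v y I hφ hres hI
  -- the coordinate of minimal order
  obtain ⟨b, hb0, hb⟩ : ∃ b : Fin (n + 1), xx y b ≠ 0 ∧ v.ord (xx y b) = - (poleOrder v y : ℤ) := by
    by_cases hP : poleOrder v y = 0
    · refine ⟨0, ?_, ?_⟩
      · simp [xx]
      · simp [xx, hP, v.ord_one]
    · have hne : (Finset.univ : Finset (Fin n)).Nonempty := by
        rw [Finset.nonempty_iff_ne_empty]
        intro he
        apply hP
        unfold poleOrder
        rw [he]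
        rfl
      obtain ⟨i, -, hi⟩ := Finset.exists_mem_eq_sup (Finset.univ : Finset (Fin n)) hne
        (fun i => (-(v.ord (y i))).toNat)
      have hi' : poleOrder v y = (-(v.ord (y i))).toNat := hi
      refine ⟨i.succ, ?_, ?_⟩
      · simp only [xx, Fin.cons_succ]
        intro h0
        rw [h0, v.ord_zero] at hi'
        exact hP (by simpa using hi')
      · simp only [xx, Fin.cons_succ]
        omega
  have hge : ∀ j, xx y j ≠ 0 → - (poleOrder v y : ℤ) ≤ v.ord (xx y j) := by
    intro j
    refine Fin.cases ?_ (fun i => ?_) j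
    · intro _
      simp only [xx, Fin.cons_zero, v.ord_one]
      omega
    · intro _
      simp only [xx, Fin.cons_succ]
      have h1 : (-(v.ord (y i))).toNat ≤ poleOrder v y :=
        Finset.le_sup (f := fun i => (-(v.ord (y i))).toNat) (Finset.mem_univ i)
      omega
  have hx' : ∀ j, 0 ≤ v.ord (xx y j * (xx y b)⁻¹) := by
    intro j
    by_cases h0 : xx y j = 0
    · rw [h0, zero_mul, v.ord_zero]
    · rw [v.ord_mul' h0 (inv_ne_zero hb0), v.ord_inv, hb]
      have := hge j h0
      omega
  choose c hc using fun j => hres _ (hx' j)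
  refine h k n d ι a φ c I hφ ?_ ?_
  · intro h0
    have h1 := hc b
    rw [mul_inv_cancel₀ hb0, h0, Pi.zero_apply, map_zero, sub_zero] at h1
    rcases h1 with h1 | h1
    · exact one_ne_zero h1
    · rw [v.ord_one] at h1
      omega
  · intro i hi
    have h1 : ge v 1 (ell (a i) (xx y) * (xx y b)⁻¹) := by
      rcases hI i hi with h2 | h2
      · left; rw [h2, zero_mul]
      · by_cases h3 : ell (a i) (xx y) = 0
        · left; rw [h3, zero_mul]
        right
        rw [v.ord_mul' h3 (inv_ne_zero hb0), v.ord_inv, hb]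
        omega
    have h2 : ge v 1 (∑ j, algebraMap k K (a i j) * (xx y j * (xx y b)⁻¹ - algebraMap k K (c j))) := by
      refine ge_sum v _ _ _ fun j _ => ?_
      have := ge_mul v (s := 0) (x := algebraMap k K (a i j)) (Or.inr (by rw [v.ord_base])) (hc j)
      simpa using this
    have h3 : algebraMap k K (∑ j, c j * a i j) = ell (a i) (xx y) * (xx y b)⁻¹ -
        ∑ j, algebraMap k K (a i j) * (xx y j * (xx y b)⁻¹ - algebraMap k K (c j)) := by
      simp only [ell, map_sum, map_mul, Finset.sum_mul]
      rw [← Finset.sum_sub_distrib]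
      refine Finset.sum_congr rfl fun j _ => ?_
      ring
    have h4 : ge v 1 (algebraMap k K (∑ j, c j * a i j)) := by
      rw [h3]
      exact ge_sub v h1 h2
    rcases h4 with h4 | h4
    · exact (map_eq_zero _).1 h4
    · rw [v.ord_base] at h4
      omega

end Pool.Agent.H36.LV
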