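import Pool.Agent.H27.LV.Targets

/-!
# MP_70ba79_ag: module LAL of the board `lv_modules`
-/

set_option autoImplicit false

namespace Pool.Agent.H36.LV

open Pool.Agent.H27.LV Matrix

theorem lal : T_LAL := by
  intro F _ A R _ _ _ _ U α B B' hU hdet
  set W : Matrix (A ⊕ R) (A ⊕ R) F := fromCols α B with hW
  have hu : IsUnit W.det := isUnit_iff_ne_zero.mpr hdet
  set Z : Matrix (A ⊕ R) R F := W⁻¹ * B' with hZ
  have hWZ : W * Z = B' := by
    rw [hZ, ← Matrix.mul_assoc, Matrix.mul_nonsing_inv _ hu, Matrix.one_mul]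
  set X : Matrix A R F := Z.toRows₁ with hX
  set Y : Matrix R R F := Z.toRows₂ with hY
  have hXY : fromRows X Y = Z := fromRows_toRows Z
  have hB' : B' = α * X + B * Y := by
    rw [← hWZ, ← hXY, hW, fromCols_mul_fromRows]
  have hcols : fromCols α B' = W * fromBlocks 1 X 0 Y := by
    rw [hW, ← fromCols_fromRows_eq_fromBlocks, mul_fromCols, fromCols_mul_fromRows,
      fromCols_mul_fromRows, ← hB']
    simp
  have hd1 : (fromCols α B').det = W.det * Y.det := by
    rw [hcols, det_mul, det_fromBlocks_zero₂₁, det_one, one_mul]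
  have hd2 : (U * B').det = (U * B).det * Y.det := by
    rw [hB', Matrix.mul_add, ← Matrix.mul_assoc, hU, Matrix.zero_mul, zero_add,
      ← Matrix.mul_assoc, det_mul]
  rw [hd1, hd2]
  ring

end Pool.Agent.H36.LV
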